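import Pool.Agent.H29.HMF.Stmts

/-!
# Row RL2 of the board hmf: `Γ`-equivalence of base points and equivalence of lattices
-/

set_option autoImplicit false

open Matrix MeasureTheory

namespace Pool.HMF

namespace RL2H31

open Pool.FL4

/-- the place of an index -/
def pl : Fin 4 → Fin 2 := ![0, 0, 1, 1]

theorem em_pl (j : Fin 4) (z : ℤ√2) : em (pl j) z = z.re + z.im * r j := by
  fin_cases j <;> simp [em, pl, r] <;> ring

theorem inL_iff (i : ℕ) (s : ℤ) (z : Fin 4 → ℝ) : inL i s z ↔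
    ∃ m n : ℤ√2, ∀ j, z j = em (pl j) m * (yy i j - s) + em (pl j) n * be i j := by
  constructor
  · rintro ⟨m, hm⟩
    exact ⟨⟨m 0, m 1⟩, ⟨m 2, m 3⟩, fun j => by rw [hm j, em_pl, em_pl]⟩
  · rintro ⟨m, n, h⟩
    exact ⟨![m.re, m.im, n.re, n.im], fun j => by rw [h j, em_pl, em_pl]; simp⟩

theorem det_Ms {i : ℕ} (hi : 1 ≤ i) (s : ℤ) (v : Fin 2) : (Ms i s v).det ≠ 0 := by
  obtain ⟨-, -, hy, hb, -⟩ := pos seq i hi
  have h : (Ms i s v).det = 2 * (yy i (ix v) * be i (ix v)) := by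
    rw [Ms, det_fin_two_of]
    ring
  rw [h]
  exact mul_ne_zero two_ne_zero (mul_ne_zero (hy _) (hb _))

theorem gs_val {i : ℕ} (hi : 1 ≤ i) (s : ℤ) (v : Fin 2) :
    (gs i s v).1 = Ms i s v * diagonal ![1, (Ms i s v).det⁻¹] := by
  rw [gs, nrm2, dif_pos (det_Ms hi s v)]

theorem dg_inv (a : ℝ) (ha : a ≠ 0) : (diagonal ![1, a⁻¹] : Matrix (Fin 2) (Fin 2) ℝ) *
    diagonal ![1, a] = 1 := by
  rw [diagonal_mul_diagonal, ← diagonal_one]
  congr 1
  funext j
  fin_cases j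
  · simp
  · simp [ha]

theorem mat (A B C P Q D R : Matrix (Fin 2) (Fin 2) ℝ) (h : A * P = C * (B * Q) * D)
    (hP : P * R = 1) : A = C * B * (Q * D * R) := by
  calc A = A * (P * R) := by rw [hP, mul_one]
    _ = (A * P) * R := (Matrix.mul_assoc _ _ _).symm
    _ = C * (B * Q) * D * R := by rw [h]
    _ = C * B * (Q * D * R) := by simp only [Matrix.mul_assoc]

theorem ms_rel {i : ℕ} (hi : 1 ≤ i) (s s' : ℤ) (v : Fin 2) (G : Matrix (Fin 2) (Fin 2) ℝ)
    (d : Fin 2 → ℝ) (h : (gs i s' v).1 = G * (gs i s v).1 * diagonal d) :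
    ∃ D : Fin 2 → ℝ, Ms i s' v = G * Ms i s v * diagonal D := by
  rw [gs_val hi, gs_val hi] at h
  have h1 := mat _ _ _ _ _ _ _ h (dg_inv _ (det_Ms hi s' v))
  rw [diagonal_mul_diagonal, diagonal_mul_diagonal] at h1
  exact ⟨_, h1⟩

end RL2H31

open RL2H31 Pool.FL4 in
theorem rl2_thm (BAS : BASS) : RL2S := by
  intro i hi s s' γ d h
  have h1 : ∀ v, ∃ D : Fin 2 → ℝ, Ms i s' v = cm v γ.1 * Ms i s v * diagonal D := fun v =>
    ms_rel hi s s' v _ _ (h v)
  choose D hD using h1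
  obtain ⟨hmul, hadd, hneg, hone, -, -, -, -, -, hdet, -⟩ := BAS
  obtain ⟨-, -, -, hb, -, hy1, hy3, -, -, -, hb1, -, hb3, -⟩ := pos seq i hi
  set d' : Fin 4 → ℝ := ![D 0 0, D 0 1, D 1 0, D 1 1] with hd'
  have key : ∀ j, yy i j - s' = (em (pl j) (γ.1 0 0) * (yy i j - s) +
      em (pl j) (γ.1 0 1) * be i j) * d' j ∧
      be i j = (em (pl j) (γ.1 1 0) * (yy i j - s) + em (pl j) (γ.1 1 1) * be i j) * d' j := by
    intro j
    have a00 := congrFun (congrFun (hD 0) 0) 0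
    have a01 := congrFun (congrFun (hD 0) 0) 1
    have a10 := congrFun (congrFun (hD 0) 1) 0
    have a11 := congrFun (congrFun (hD 0) 1) 1
    have b00 := congrFun (congrFun (hD 1) 0) 0
    have b01 := congrFun (congrFun (hD 1) 0) 1
    have b10 := congrFun (congrFun (hD 1) 1) 0
    have b11 := congrFun (congrFun (hD 1) 1) 1
    simp [Ms, cm, ix, Matrix.mul_apply, Fin.sum_univ_two] at a00 a01 a10 a11 b00 b01 b10 b11
    fin_cases j
    · simpa [pl, hd'] using ⟨a00, a10⟩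
    · simp [pl, hd', hy1, hb1]
      exact ⟨a01, a11⟩
    · simpa [pl, hd'] using ⟨b00, b10⟩
    · simp [pl, hd', hy3, hb3]
      exact ⟨b01, b11⟩
  have hdt : ∀ j, em (pl j) (γ.1 0 0) * em (pl j) (γ.1 1 1) -
      em (pl j) (γ.1 0 1) * em (pl j) (γ.1 1 0) = 1 := by
    intro j
    have h2 := hdet (pl j) γ.1
    rw [γ.2, hone, det_fin_two] at h2
    simpa [cm] using h2
  have hd0 : ∀ j, d' j ≠ 0 := by
    intro j h0
    have h2 := (key j).2
    rw [h0, mul_zero] at h2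
    exact hb j h2
  refine ⟨d', hd0, fun z => ?_⟩
  rw [inL_iff, inL_iff]
  constructor
  · rintro ⟨m, n, hz⟩
    refine ⟨m * γ.1 1 1 + -(n * γ.1 1 0), -(m * γ.1 0 1) + n * γ.1 0 0, fun j => ?_⟩
    obtain ⟨k1, k2⟩ := key j
    have k3 := hdt j
    rw [hz j, hadd, hadd, hneg, hneg, hmul, hmul, hmul, hmul]
    generalize em (pl j) (γ.1 0 0) = g00 at *
    generalize em (pl j) (γ.1 0 1) = g01 at *
    generalize em (pl j) (γ.1 1 0) = g10 at *
    generalize em (pl j) (γ.1 1 1) = g11 at *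
    linear_combination (-(em (pl j) m * g11 - em (pl j) n * g10)) * k1 -
      (-(em (pl j) m * g01) + em (pl j) n * g00) * k2 -
      d' j * (em (pl j) m * (yy i j - s) + em (pl j) n * be i j) * k3
  · rintro ⟨m, n, hz⟩
    refine ⟨m * γ.1 0 0 + n * γ.1 1 0, m * γ.1 0 1 + n * γ.1 1 1, fun j => ?_⟩
    obtain ⟨k1, k2⟩ := key j
    rw [hadd, hadd, hmul, hmul, hmul, hmul]
    apply mul_right_cancel₀ (hd0 j)
    rw [hz j, k1]
    nth_rewrite 2 [k2]
    ring

end Pool.HMF
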