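import Pool.Agent.H29.HMF.Stmts

/-!
# Row MB2 of the board hmf: two independent short vectors of `Lam g` make the flat compact
-/

set_option autoImplicit false

open Matrix MeasureTheory

namespace Pool.HMF

namespace MB2H31

theorem dg_mul (x y : ℝ) : dg x * dg y = dg (x + y) := by
  rw [dg, dg, dg, diagonal_mul_diagonal]
  congr 1
  funext i
  fin_cases i
  · simp [Real.exp_add]
  · simp only [Fin.mk_one, cons_val_one, cons_val_fin_one]
    rw [← Real.exp_add]
    congr 1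
    ring

/-- reduction of a vector modulo the lattice -/
theorem red (R A B C D : ℝ) (hA : |A| ≤ R) (hB : |B| ≤ R) (hC : |C| ≤ R) (hD : |D| ≤ R)
    (hdet : A * D - B * C ≠ 0) (v : Fin 2 → ℝ) :
    ∃ m n : ℤ, ∀ i, -(2 * R) ≤ v i - (m • ![A, B] + n • ![C, D] : Fin 2 → ℝ) i ∧
      v i - (m • ![A, B] + n • ![C, D] : Fin 2 → ℝ) i ≤ 2 * R := by
  have h0 : v 0 = (v 0 * D - v 1 * C) / (A * D - B * C) * A +
      (A * v 1 - B * v 0) / (A * D - B * C) * C := by
    rw [div_mul_eq_mul_div, div_mul_eq_mul_div, ← add_div, eq_div_iff hdet]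
    ring
  have h1 : v 1 = (v 0 * D - v 1 * C) / (A * D - B * C) * B +
      (A * v 1 - B * v 0) / (A * D - B * C) * D := by
    rw [div_mul_eq_mul_div, div_mul_eq_mul_div, ← add_div, eq_div_iff hdet]
    ring
  generalize (v 0 * D - v 1 * C) / (A * D - B * C) = x at h0 h1
  generalize (A * v 1 - B * v 0) / (A * D - B * C) = y at h0 h1
  have key : ∀ a c : ℝ, |a| ≤ R → |c| ≤ R →
      -(2 * R) ≤ (x * a + y * c) - (⌊x⌋ * a + ⌊y⌋ * c) ∧
      (x * a + y * c) - (⌊x⌋ * a + ⌊y⌋ * c) ≤ 2 * R := by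
    intro a c ha hc
    have e : (x * a + y * c) - (⌊x⌋ * a + ⌊y⌋ * c) = Int.fract x * a + Int.fract y * c := by
      rw [Int.fract, Int.fract]
      ring
    rw [e]
    have f1 := Int.fract_nonneg x
    have f2 := (Int.fract_lt_one x).le
    have f3 := Int.fract_nonneg y
    have f4 := (Int.fract_lt_one y).le
    have hR : 0 ≤ R := (abs_nonneg a).trans ha
    have g1 : |Int.fract x * a + Int.fract y * c| ≤ 2 * R := by
      calc |Int.fract x * a + Int.fract y * c| ≤ |Int.fract x * a| + |Int.fract y * c| :=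
            abs_add_le _ _
        _ = Int.fract x * |a| + Int.fract y * |c| := by
            rw [abs_mul, abs_mul, abs_of_nonneg f1, abs_of_nonneg f3]
        _ ≤ 1 * R + 1 * R := by
            gcongr
        _ = 2 * R := by ring
    exact abs_le.1 g1
  refine ⟨⌊x⌋, ⌊y⌋, fun i => ?_⟩
  fin_cases i
  · have h := key A C hA hC
    rw [← h0] at h
    simpa using h
  · have h := key B D hB hD
    rw [← h1] at h
    simpa using h

theorem mat1 (P E G L W K : Matrix (Fin 2) (Fin 2) ℝ) (e : ℝ) (he : e ^ 2 = 1)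
    (hr : E * G = G * (e • L)) : P * G * (L * W) * K = (P * E) * G * W * (e • K) := by
  rw [Matrix.mul_assoc P E G, hr, Matrix.mul_smul G, Matrix.mul_smul P, Matrix.smul_mul,
    Matrix.smul_mul, Matrix.mul_smul, smul_smul, ← pow_two, he, one_smul]
  simp only [Matrix.mul_assoc]

theorem mat2 (K : Matrix (Fin 2) (Fin 2) ℝ) (e : ℝ) (he : e ^ 2 = 1) (hk : K * Kᵀ = 1) :
    (e • K) * (e • K)ᵀ = 1 := by
  rw [transpose_smul, Matrix.smul_mul, Matrix.mul_smul, smul_smul, hk, ← pow_two, he, one_smul]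

end MB2H31

open MB2H31 in
theorem mb2_thm (BAS : BASS) (SB2 : SB2S) : MB2S := by
  intro g R A B C D hR hA hB hC hD hdet ha hb T hT
  refine ⟨g, rfl, Set.Icc (fun _ => -(2 * R)) (fun _ => 2 * R), isCompact_Icc, ?_, ?_⟩
  · rw [Real.volume_Icc_pi, Fin.prod_univ_two, ← ENNReal.ofReal_mul (by linarith)]
    exact (ENNReal.ofReal_lt_ofReal_iff (by nlinarith)).2 (by nlinarith)
  · apply Set.Subset.antisymm
    · rintro h ⟨γ, v, -, hv⟩
      obtain ⟨m, n, hmn⟩ := red R A B C D hA hB hC hD hdet v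
      obtain ⟨-, -, hadd, hsm⟩ := SB2 g
      obtain ⟨η, ε, hη⟩ := hadd _ (hsm _ ha m) _ (hsm _ hb n)
      obtain ⟨-, -, -, -, -, -, -, -, hcm, -⟩ := BAS
      generalize (m • ![A, B] + n • ![C, D] : Fin 2 → ℝ) = l at hη hmn
      refine ⟨γ * η, fun i => v i - l i, ⟨fun i => (hmn i).1, fun i => (hmn i).2⟩, fun i => ?_⟩
      obtain ⟨k, hk, hh⟩ := hv i
      obtain ⟨he, hr⟩ := hη i
      refine ⟨⟨ε i • k.1, by rw [det_smul, Fintype.card_fin, he, k.2, mul_one]⟩, ?_, ?_⟩
      · exact mat2 k.1 (ε i) he hk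
      · have e1 : dg (v i) = dg (l i) * dg (v i - l i) := by
          rw [dg_mul, add_sub_cancel]
        have e2 := mat1 (cm i γ.1) (cm i η.1) (g i).1 (dg (l i)) (dg (v i - l i)) k.1 (ε i) he hr
        rw [← hcm, ← e1] at e2
        exact hh.trans e2
    · rintro h ⟨γ, v, -, hv⟩
      exact ⟨γ, v, Set.mem_univ _, hv⟩

end Pool.HMF
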